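import Mathlib

/-!
# Every positive number is a number of irreducible FAT colorings

For every `b ≥ 1` the graph on the strings of `b` bits, two different strings being adjacent iff the
first position in which they differ is even (positions are numbered from `0`), has exactly `b`
irreducible FAT colorings up to automorphisms, namely the 2-colorings by the `j`-th bit.
-/

set_option autoImplicit false

namespace Pool.Agent.Results.MP_48b99b_co.AllCounts

open Classical

/-- `e(v, S)`: the number of neighbours of `v` in `S`. -/
noncomputable def nbrs {V : Type} (G : SimpleGraph V) (v : V) (S : Set V) : ℕ :=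
  Set.ncard {w | G.Adj v w ∧ w ∈ S}

/-- The `k`-coloring `c` of `G` is FAT: there is `α ∈ [0,1]` such that, with `β = 1 - (k-1) α`,
every vertex `v` has exactly `β deg v` neighbours in its own color class and exactly `α deg v`
neighbours in every other one. -/
def IsFAT {V : Type} (G : SimpleGraph V) {k : ℕ} (c : V → Fin k) : Prop :=
  ∃ α : ℝ, 0 ≤ α ∧ α ≤ 1 ∧ ∀ (v : V) (i : Fin k),
    (nbrs G v {w | c w = i} : ℝ) =
      (if c v = i then 1 - ((k : ℝ) - 1) * α else α) * (nbrs G v Set.univ : ℝ)

/-- The partition (equivalence relation) `s` of the vertices is the partition into the nonempty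
color classes of a FAT coloring. -/
def IsFATPartition {V : Type} (G : SimpleGraph V) (s : Setoid V) : Prop :=
  ∃ (k : ℕ) (c : V → Fin k), IsFAT G c ∧ s = Setoid.ker c

/-- A FAT partition is irreducible if there is no finer one (`t ≤ s` means that `t` is finer than
`s`). -/
def IsIrreducible {V : Type} (G : SimpleGraph V) (s : Setoid V) : Prop :=
  IsFATPartition G s ∧ ∀ t : Setoid V, IsFATPartition G t → t ≤ s → t = s

/-- Two irreducible FAT partitions are regarded as the same if an automorphism of `G` maps one onto
the other. -/
def sameOrbit {V : Type} (G : SimpleGraph V) : Setoid {s : Setoid V // IsIrreducible G s} where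
  r s t := ∃ φ : G ≃g G, ∀ x y, s.1 x y ↔ t.1 (φ x) (φ y)
  iseqv :=
    { refl := fun s => ⟨RelIso.refl _, fun x y => Iff.rfl⟩
      symm := by
        rintro s t ⟨φ, h⟩
        refine ⟨φ.symm, fun x y => ?_⟩
        have := h (φ.symm x) (φ.symm y)
        simpa using this.symm
      trans := by
        rintro s t u ⟨φ, h⟩ ⟨ψ, h'⟩
        exact ⟨φ.trans ψ, fun x y => (h x y).trans (h' _ _)⟩ }

/-- The number of irreducible FAT colorings of `G`, up to automorphisms of `G`. -/
noncomputable def numIrreducible {V : Type} (G : SimpleGraph V) : ℕ :=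
  Nat.card (Quotient (sameOrbit G))

/-! ### the graph -/

/-- the strings of `b` bits -/
abbrev W (b : ℕ) := Fin b → Bool

/-- equal bits in the positions before `n` -/
def agree {b : ℕ} (n : ℕ) (x y : W b) : Prop := ∀ j : Fin b, (j : ℕ) < n → x j = y j

variable {b : ℕ}

theorem agree_refl (n : ℕ) (x : W b) : agree n x x := fun _ _ => rfl

theorem agree.symm {n : ℕ} {x y : W b} (h : agree n x y) : agree n y x :=
  fun j hj => (h j hj).symm

theorem agree.trans {n : ℕ} {x y z : W b} (h : agree n x y) (h' : agree n y z) : agree n x z :=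
  fun j hj => (h j hj).trans (h' j hj)

theorem agree.mono {n m : ℕ} {x y : W b} (h : agree n x y) (hm : m ≤ n) : agree m x y :=
  fun j hj => h j (lt_of_lt_of_le hj hm)

theorem agree_comm {n : ℕ} {x y : W b} : agree n x y ↔ agree n y x := ⟨agree.symm, agree.symm⟩

theorem agree_all {x y : W b} (h : agree b x y) : x = y := funext fun j => h j j.2

/-- The graph: two strings are adjacent iff the first position in which they differ is even. -/
def Gr (b : ℕ) : SimpleGraph (W b) where
  Adj x y := ∃ i : ℕ, Even i ∧ agree i x y ∧ ¬ agree (i + 1) x y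
  symm := ⟨by
    rintro x y ⟨i, h1, h2, h3⟩
    exact ⟨i, h1, h2.symm, fun h => h3 h.symm⟩⟩
  loopless := ⟨by
    rintro x ⟨i, -, -, h⟩
    exact h (agree_refl _ _)⟩

theorem adj_iff {x y : W b} : (Gr b).Adj x y ↔ ∃ i : ℕ, Even i ∧ agree i x y ∧ ¬ agree (i + 1) x y :=
  Iff.rfl

theorem adj_of_first {x y : W b} {i : ℕ} (h1 : agree i x y) (h2 : ¬ agree (i + 1) x y) :
    (Gr b).Adj x y ↔ Even i := by
  constructor
  · rintro ⟨j, hj, h3, h4⟩
    have : i = j := by
      rcases Nat.lt_trichotomy i j with h | h | h
      · exact absurd (h3.mono h) h2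
      · exact h
      · exact absurd (h1.mono h) h4
    rw [this]; exact hj
  · intro h; exact ⟨i, h, h1, h2⟩

/-- adjacency depends only on the relations `agree n` -/
theorem adj_congr {x y x' y' : W b} (h : ∀ n, agree n x y ↔ agree n x' y') :
    (Gr b).Adj x y ↔ (Gr b).Adj x' y' := by
  rw [adj_iff, adj_iff]
  simp only [h]

/-- changing the `j`-th bit -/
def flip (j : Fin b) (x : W b) : W b := Function.update x j (!x j)

theorem flip_same (j : Fin b) (x : W b) : flip j x j = !x j := by simp [flip]

theorem flip_ne {j i : Fin b} (h : i ≠ j) (x : W b) : flip j x i = x i := by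
  simp [flip, Function.update_of_ne h]

theorem flip_flip (j : Fin b) (x : W b) : flip j (flip j x) = x := by
  funext i
  by_cases h : i = j
  · subst h; rw [flip_same, flip_same]; simp
  · rw [flip_ne h, flip_ne h]

theorem agree_flip (j : Fin b) (x : W b) : agree j x (flip j x) := by
  intro i hi
  rw [flip_ne]
  intro h; subst h; omega

theorem not_agree_flip (j : Fin b) (x : W b) : ¬ agree (j + 1) x (flip j x) := by
  intro h
  have := h j (by omega)
  rw [flip_same] at this
  revert this
  cases x j <;> simp

/-- the dichotomy at the `j`-th bit -/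
theorem agree_succ_or {j : Fin b} {x y : W b} (h : agree j x y) :
    agree (j + 1) x y ∨ agree (j + 1) (flip j x) y := by
  by_cases hj : x j = y j
  · left
    intro i hi
    rcases Nat.lt_succ_iff_lt_or_eq.1 hi with h1 | h1
    · exact h i h1
    · have : i = j := Fin.ext h1
      rw [this]; exact hj
  · right
    intro i hi
    rcases Nat.lt_succ_iff_lt_or_eq.1 hi with h1 | h1
    · rw [flip_ne (by intro h; subst h; omega)]
      exact h i h1
    · have : i = j := Fin.ext h1
      rw [this, flip_same]
      revert hj
      cases x j <;> cases y j <;> simp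

theorem flip_agree (j : Fin b) {n : ℕ} {x y : W b} (h : agree n x y) :
    agree n (flip j x) (flip j y) := by
  intro i hi
  by_cases hij : i = j
  · subst hij; rw [flip_same, flip_same, h i hi]
  · rw [flip_ne hij, flip_ne hij]; exact h i hi

/-- an involution which respects the relations `agree n` is an automorphism -/
def autOf (φ : W b → W b) (h1 : ∀ x, φ (φ x) = x) (h2 : ∀ n x y, agree n x y → agree n (φ x) (φ y)) :
    Gr b ≃g Gr b where
  toFun := φ
  invFun := φ
  left_inv := h1
  right_inv := h1
  map_rel_iff' := by
    intro x y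
    apply adj_congr
    intro n
    constructor
    · intro h
      have := h2 n _ _ h
      simpa [h1] using this
    · exact h2 n x y

/-- flipping a bit -/
def flipAut (j : Fin b) : Gr b ≃g Gr b := autOf (flip j) (flip_flip j) (fun _ _ _ => flip_agree j)

/-- adding `z` -/
def trans (z : W b) (x : W b) : W b := fun i => xor (x i) (z i)

def transAut (z : W b) : Gr b ≃g Gr b := autOf (trans z)
  (fun x => by funext i; simp [trans]) (fun n x y h i hi => by simp [trans, h i hi])

/-! ### the adjacency operator -/

/-- the adjacency operator -/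
noncomputable def A (f : W b → ℝ) (x : W b) : ℝ := ∑ y, if (Gr b).Adj x y then f y else 0

theorem A_aut (φ : Gr b ≃g Gr b) (f : W b → ℝ) (x : W b) :
    A (fun y => f (φ y)) x = A f (φ x) := by
  unfold A
  apply Fintype.sum_equiv φ.toEquiv
  intro y
  have : (Gr b).Adj (φ x) (φ y) ↔ (Gr b).Adj x y := φ.map_rel_iff
  simp [this]

theorem A_add (f g : W b → ℝ) (x : W b) : A (fun y => f y + g y) x = A f x + A g x := by
  unfold A
  rw [← Finset.sum_add_distrib]
  apply Finset.sum_congr rfl
  intro y _
  split_ifs <;> simp

/-- the eigenvalue of level `j` -/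
noncomputable def lamx (j : ℕ) (x : W b) : ℝ :=
  ∑ y, if agree (j + 1) x y then
    ((if (Gr b).Adj x y then (1 : ℝ) else 0) - (if Even j then 1 else 0)) else 0

theorem lamx_aut (φ : Gr b ≃g Gr b) (h : ∀ n x y, agree n (φ x) (φ y) ↔ agree n x y) (j : ℕ)
    (x : W b) : lamx j (φ x) = lamx j x := by
  unfold lamx
  symm
  apply Fintype.sum_equiv φ.toEquiv
  intro y
  have h1 : (Gr b).Adj (φ x) (φ y) ↔ (Gr b).Adj x y := φ.map_rel_iff
  have h2 := h (j + 1) x y
  simp [h1, h2]

/-- the zero string -/
def zero : W b := fun _ => false

theorem lamx_const (j : ℕ) (x : W b) : lamx j x = lamx j (zero : W b) := by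
  have h := lamx_aut (transAut x) (by
    intro n u v
    constructor
    · intro h i hi
      have := h i hi
      change xor (u i) (x i) = xor (v i) (x i) at this
      revert this
      cases u i <;> cases v i <;> cases x i <;> simp
    · intro h i hi
      change xor (u i) (x i) = xor (v i) (x i)
      rw [h i hi]) j zero
  have h2 : transAut x (zero : W b) = x := by
    funext i
    change xor (false) (x i) = x i
    simp
  rw [h2] at h
  exact h

noncomputable def lam (b j : ℕ) : ℝ := lamx j (zero : W b)

theorem A_diff (j : Fin b) (f : W b → ℝ) (hf : ∀ x y, agree (j + 1) x y → f x = f y) (x : W b) :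
    A f x - A f (flip j x) = lam b j * (f x - f (flip j x)) := by
  have key : ∀ y : W b, ((if (Gr b).Adj x y then f y else 0) -
      (if (Gr b).Adj (flip j x) y then f y else 0)) =
      f x * (if agree (j + 1) x y then
        ((if (Gr b).Adj x y then (1 : ℝ) else 0) - (if Even (j : ℕ) then 1 else 0)) else 0) -
      f (flip j x) * (if agree (j + 1) (flip j x) y then
        ((if (Gr b).Adj (flip j x) y then (1 : ℝ) else 0) - (if Even (j : ℕ) then 1 else 0))
          else 0) := by
    intro y
    by_cases h1 : agree (j + 1) x y
    · have h2 : ¬ agree (j + 1) (flip j x) y := fun h => not_agree_flip j x (h1.trans h.symm)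
      have h3 : agree j (flip j x) y := (agree_flip j x).symm.trans (h1.mono (Nat.le_succ _))
      have h4 := adj_of_first h3 h2
      rw [if_pos h1, if_neg h2, hf x y h1]
      simp only [h4]
      split_ifs <;> ring
    · by_cases h2 : agree (j + 1) (flip j x) y
      · have h3 : agree j x y := (agree_flip j x).trans (h2.mono (Nat.le_succ _))
        have h4 := adj_of_first h3 h1
        rw [if_neg h1, if_pos h2, hf _ y h2]
        simp only [h4]
        split_ifs <;> ring
      · rw [if_neg h1, if_neg h2]
        have h3 : ¬ agree j x y := fun h => by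
          rcases agree_succ_or h with h | h
          · exact h1 h
          · exact h2 h
        have h4 : (Gr b).Adj x y ↔ (Gr b).Adj (flip j x) y := by
          apply adj_congr
          intro n
          rcases Nat.lt_or_ge j n with hn | hn
          · constructor
            · intro h; exact absurd (h.mono hn.le) h3
            · intro h
              exact absurd ((agree_flip j x).trans (h.mono hn.le)) h3
          · have h5 := (agree_flip j x).mono hn
            exact ⟨fun h => h5.symm.trans h, fun h => h5.trans h⟩
        simp [h4]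
  unfold A
  rw [← Finset.sum_sub_distrib, Finset.sum_congr rfl (fun y _ => key y), Finset.sum_sub_distrib,
    ← Finset.mul_sum, ← Finset.mul_sum]
  have e1 : (∑ y : W b, if agree (j + 1) x y then
        ((if (Gr b).Adj x y then (1 : ℝ) else 0) - (if Even (j : ℕ) then 1 else 0)) else 0)
        = lam b j := lamx_const j x
  have e2 : (∑ y : W b, if agree (j + 1) (flip j x) y then
        ((if (Gr b).Adj (flip j x) y then (1 : ℝ) else 0) - (if Even (j : ℕ) then 1 else 0)) else 0)
        = lam b j := lamx_const j _
  rw [e1, e2]
  ring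

/-- number of neighbours in the block -/
noncomputable def Dn (b j : ℕ) : ℕ := (Finset.univ.filter fun y : W b =>
  agree (j + 1) zero y ∧ (Gr b).Adj zero y).card

/-- number of non-neighbours in the block -/
noncomputable def Nn (b j : ℕ) : ℕ := (Finset.univ.filter fun y : W b =>
  agree (j + 1) zero y ∧ ¬ (Gr b).Adj zero y).card

theorem lam_odd {j : ℕ} (h : ¬ Even j) : lam b j = Dn b j := by
  unfold lam lamx Dn
  rw [Finset.card_filter]
  push_cast
  apply Finset.sum_congr rfl
  intro y _
  by_cases h1 : agree (j + 1) zero y <;> by_cases h2 : (Gr b).Adj zero y <;> simp [h, h1, h2]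

theorem lam_even {j : ℕ} (h : Even j) : lam b j = - (Nn b j : ℝ) := by
  unfold lam lamx Nn
  rw [Finset.card_filter]
  push_cast
  rw [← Finset.sum_neg_distrib]
  apply Finset.sum_congr rfl
  intro y _
  by_cases h1 : agree (j + 1) zero y <;> by_cases h2 : (Gr b).Adj zero y <;> simp [h, h1, h2]

theorem Nn_pos (j : ℕ) : 0 < Nn b j := by
  apply Finset.card_pos.2
  refine ⟨zero, ?_⟩
  simp only [Finset.mem_filter, Finset.mem_univ, true_and]
  exact ⟨agree_refl _ _, fun h => (Gr b).loopless.irrefl _ h⟩

theorem lam_lt_aux {j k : ℕ} (hjk : j < k) (hk : k < b) : lam b j ≠ lam b k := by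
  have hj1 : j + 1 < b := by omega
  set z : W b := flip ⟨j + 1, hj1⟩ zero with hz
  have hz1 : agree (j + 1) zero z := agree_flip ⟨j + 1, hj1⟩ zero
  have hz2 : ¬ agree (j + 1 + 1) zero z := not_agree_flip ⟨j + 1, hj1⟩ zero
  have hz3 := adj_of_first hz1 hz2
  by_cases h1 : Even j <;> by_cases h2 : Even k
  · have h3 : k ≠ j + 1 := by rintro rfl; rw [Nat.even_add_one] at h2; exact h2 h1
    have h4 : ¬ (Gr b).Adj zero z := by
      rw [hz3, Nat.even_add_one]; exact fun h => h h1
    rw [lam_even h1, lam_even h2]
    have : Nn b k < Nn b j := by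
      apply Finset.card_lt_card
      rw [Finset.ssubset_iff_of_subset]
      · refine ⟨z, ?_, ?_⟩
        · simp only [Finset.mem_filter, Finset.mem_univ, true_and]; exact ⟨hz1, h4⟩
        · simp only [Finset.mem_filter, Finset.mem_univ, true_and]
          rintro ⟨h5, -⟩
          exact hz2 (h5.mono (by omega))
      · intro y
        simp only [Finset.mem_filter, Finset.mem_univ, true_and]
        rintro ⟨h5, h6⟩
        exact ⟨h5.mono (by omega), h6⟩
    intro h
    have h' : (Nn b j : ℝ) = Nn b k := by linarith
    have := Nat.cast_injective (R := ℝ) h'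
    omega
  · rw [lam_even h1, lam_odd h2]
    have h3 : (0 : ℝ) < Nn b j := by exact_mod_cast Nn_pos j
    have h4 : (0 : ℝ) ≤ Dn b k := Nat.cast_nonneg _
    intro h; linarith
  · rw [lam_odd h1, lam_even h2]
    have h3 : (0 : ℝ) < Nn b k := by exact_mod_cast Nn_pos k
    have h4 : (0 : ℝ) ≤ Dn b j := Nat.cast_nonneg _
    intro h; linarith
  · have h3 : k ≠ j + 1 := by rintro rfl; rw [Nat.even_add_one] at h2; exact h2 h1
    have h4 : (Gr b).Adj zero z := by
      rw [hz3, Nat.even_add_one]; exact h1
    rw [lam_odd h1, lam_odd h2]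
    have : Dn b k < Dn b j := by
      apply Finset.card_lt_card
      rw [Finset.ssubset_iff_of_subset]
      · refine ⟨z, ?_, ?_⟩
        · simp only [Finset.mem_filter, Finset.mem_univ, true_and]; exact ⟨hz1, h4⟩
        · simp only [Finset.mem_filter, Finset.mem_univ, true_and]
          rintro ⟨h5, -⟩
          exact hz2 (h5.mono (by omega))
      · intro y
        simp only [Finset.mem_filter, Finset.mem_univ, true_and]
        rintro ⟨h5, h6⟩
        exact ⟨h5.mono (by omega), h6⟩
    intro h
    have := Nat.cast_injective (R := ℝ) h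
    omega

theorem lam_inj {j k : ℕ} (hj : j < b) (hk : k < b) (h : lam b j = lam b k) : j = k := by
  rcases Nat.lt_trichotomy j k with h1 | h1 | h1
  · exact absurd h (lam_lt_aux h1 hk)
  · exact h1
  · exact absurd h.symm (lam_lt_aux h1 hj)

/-! ### functions with `A f (x) - A f (y) = θ (f x - f y)` -/

/-- one step down -/
theorem step_down {θ : ℝ} {f : W b → ℝ} (hA : ∀ x y, A f x - A f y = θ * (f x - f y)) {j : ℕ}
    (hj : j < b) (hθ : θ ≠ lam b j) (hf : ∀ x y, agree (j + 1) x y → f x = f y) :
    ∀ x y, agree j x y → f x = f y := by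
  intro x y h
  have h1 := A_diff ⟨j, hj⟩ f hf x
  rw [hA] at h1
  have h2 : (θ - lam b j) * (f x - f (flip ⟨j, hj⟩ x)) = 0 := by
    have : lam b ((⟨j, hj⟩ : Fin b) : ℕ) = lam b j := rfl
    rw [this] at h1
    linarith
  have h3 : f x = f (flip ⟨j, hj⟩ x) := by
    rcases mul_eq_zero.1 h2 with h | h
    · exact absurd (by linarith) hθ
    · linarith
  rcases agree_succ_or (j := ⟨j, hj⟩) h with h | h
  · exact hf _ _ h
  · rw [h3]; exact hf _ _ h

theorem steps_down {θ : ℝ} {f : W b → ℝ} (hA : ∀ x y, A f x - A f y = θ * (f x - f y)) {n : ℕ}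
    (hn : n ≤ b) (hθ : ∀ j < n, θ ≠ lam b j) (hf : ∀ x y, agree n x y → f x = f y) :
    ∀ x y, f x = f y := by
  induction n with
  | zero => intro x y; exact hf x y (fun j hj => absurd hj (by omega))
  | succ n ih =>
    exact ih (by omega) (fun j hj => hθ j (by omega))
      (step_down hA (by omega) (hθ n (by omega)) hf)


/-! ### FAT colorings -/

theorem A_indicator {k : ℕ} (c : W b → Fin k) (i : Fin k) (x : W b) :
    A (fun y => if c y = i then (1 : ℝ) else 0) x = (nbrs (Gr b) x {w | c w = i} : ℝ) := by
  unfold A nbrs
  rw [Set.ncard_eq_toFinset_card', Finset.card_eq_sum_ones, Nat.cast_sum]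
  rw [show (Set.toFinset {w | (Gr b).Adj x w ∧ w ∈ {w | c w = i}}) =
    Finset.univ.filter (fun w => (Gr b).Adj x w ∧ c w = i) by ext w; simp]
  rw [Finset.sum_filter]
  apply Finset.sum_congr rfl
  intro y _
  by_cases h1 : (Gr b).Adj x y <;> by_cases h2 : c y = i <;> simp [h1, h2]

theorem nbrs_univ (x : W b) : nbrs (Gr b) x Set.univ = nbrs (Gr b) (zero : W b) Set.univ := by
  have key : ∀ x : W b, (nbrs (Gr b) x Set.univ : ℝ) = A (fun _ => 1) x := by
    intro x
    unfold A nbrs
    rw [Set.ncard_eq_toFinset_card', Finset.card_eq_sum_ones, Nat.cast_sum]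
    rw [show (Set.toFinset {w | (Gr b).Adj x w ∧ w ∈ Set.univ}) =
      Finset.univ.filter (fun w => (Gr b).Adj x w) by ext w; simp]
    rw [Finset.sum_filter]
    apply Finset.sum_congr rfl
    intro y _
    by_cases h1 : (Gr b).Adj x y <;> simp [h1]
  have h2 : transAut x (zero : W b) = x := by
    funext i
    change xor (false) (x i) = x i
    simp
  have h := A_aut (transAut x) (fun _ => 1) zero
  rw [h2, ← key, ← key] at h
  exact_mod_cast h.symm

/-- the classification of the FAT colorings of the graph -/
theorem classify {k : ℕ} {c : W b → Fin k} (hc : IsFAT (Gr b) c) :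
    (∀ x y, c x = c y) ∨ ∃ (j : Fin b) (h : W b → Bool), (∀ x y, c x = c y ↔ h x = h y) ∧
      (∀ x y, agree (j + 1) x y → h x = h y) ∧ (∀ x, h (flip j x) = !h x) := by
  obtain ⟨α, -, -, hα⟩ := hc
  set d : ℝ := (nbrs (Gr b) (zero : W b) Set.univ : ℝ) with hd
  set θ : ℝ := (1 - ((k : ℝ) - 1) * α - α) * d with hθ
  have hA : ∀ i x y, A (fun y => if c y = i then (1 : ℝ) else 0) x -
      A (fun y => if c y = i then (1 : ℝ) else 0) y =
      θ * ((if c x = i then 1 else 0) - (if c y = i then 1 else 0)) := by
    intro i x y
    rw [A_indicator, A_indicator, hα, hα, nbrs_univ x, nbrs_univ y, ← hd]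
    split_ifs <;> (simp only [hθ]; ring)
  by_cases hall : ∃ j : Fin b, θ = lam b j ∧ ¬ (∀ x y, agree j x y → c x = c y) ∧
      (∀ x y, agree (j + 1) x y → c x = c y)
  · right
    obtain ⟨j, hj, h1, h2⟩ := hall
    have h3 : ∃ x, c x ≠ c (flip j x) := by
      by_contra hcon
      push Not at hcon
      apply h1
      intro x y h
      rcases agree_succ_or h with h | h
      · exact h2 _ _ h
      · rw [hcon]; exact h2 _ _ h
    obtain ⟨x0, hx0⟩ := h3
    -- the average over the `j`-th bit is constant
    have hg : ∀ i x, (if c x = i then (1 : ℝ) else 0) + (if c (flip j x) = i then 1 else 0) =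
        (if c x0 = i then (1 : ℝ) else 0) + (if c (flip j x0) = i then 1 else 0) := by
      intro i x
      refine steps_down (θ := θ)
        (f := fun y => (if c y = i then (1 : ℝ) else 0) + (if c (flip j y) = i then 1 else 0))
        ?_ (n := j) (by omega) ?_ ?_ x x0
      · intro u v
        rw [A_add, A_add]
        have e1 := A_aut (flipAut j) (fun y => if c y = i then (1 : ℝ) else 0) u
        have e2 := A_aut (flipAut j) (fun y => if c y = i then (1 : ℝ) else 0) v
        change A (fun y => if c (flip j y) = i then (1 : ℝ) else 0) u = A _ (flip j u) at e1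
        change A (fun y => if c (flip j y) = i then (1 : ℝ) else 0) v = A _ (flip j v) at e2
        rw [e1, e2]
        have e3 := hA i u v
        have e4 := hA i (flip j u) (flip j v)
        linear_combination e3 + e4
      · intro m hm h
        rw [hj] at h
        have := lam_inj j.2 (lt_trans hm j.2) h
        omega
      · intro u v huv
        rcases agree_succ_or huv with h | h
        · rw [h2 _ _ h, h2 _ _ (flip_agree j h)]
        · have h4 := h2 _ _ h
          have h5 := h2 _ _ (flip_agree j h)
          rw [flip_flip] at h5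
          rw [h4, h5]; ring
    have hg1 : ∀ x, (c x = c x0 ∧ c (flip j x) ≠ c x0) ∨ (c x ≠ c x0 ∧ c (flip j x) = c x0) := by
      intro x
      have h := hg (c x0) x
      rw [if_pos rfl, if_neg (Ne.symm hx0)] at h
      by_cases h1 : c x = c x0 <;> by_cases h2 : c (flip j x) = c x0
      · rw [if_pos h1, if_pos h2] at h; norm_num at h
      · exact Or.inl ⟨h1, h2⟩
      · exact Or.inr ⟨h1, h2⟩
      · rw [if_neg h1, if_neg h2] at h; norm_num at h
    have hg2 : ∀ x, (c x = c (flip j x0) ∧ c (flip j x) ≠ c (flip j x0)) ∨
        (c x ≠ c (flip j x0) ∧ c (flip j x) = c (flip j x0)) := by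
      intro x
      have h := hg (c (flip j x0)) x
      rw [if_pos rfl, if_neg hx0] at h
      by_cases h1 : c x = c (flip j x0) <;> by_cases h2 : c (flip j x) = c (flip j x0)
      · rw [if_pos h1, if_pos h2] at h; norm_num at h
      · exact Or.inl ⟨h1, h2⟩
      · exact Or.inr ⟨h1, h2⟩
      · rw [if_neg h1, if_neg h2] at h; norm_num at h
    have hg3 : ∀ x, c x = c x0 ∨ c x = c (flip j x0) := by
      intro x
      rcases hg1 x with h | h
      · exact Or.inl h.1
      · rcases hg2 x with h' | h'
        · exact Or.inr h'.1
        · exact absurd (h.2.symm.trans h'.2) hx0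
    refine ⟨j, fun x => decide (c x = c x0), ?_, ?_, ?_⟩
    · intro x y
      simp only [decide_eq_decide]
      constructor
      · intro h; rw [h]
      · intro h
        rcases hg3 x with h1 | h1
        · rw [h1, h.1 h1]
        · rcases hg3 y with h2 | h2
          · rw [h2, h.2 h2]
          · rw [h1, h2]
    · intro x y h
      simp only [h2 x y h]
    · intro x
      rcases hg1 x with h | h <;> simp [h.1, h.2]
  · left
    push Not at hall
    have key : ∀ n ≤ b, ∀ x y, agree (b - n) x y → c x = c y := by
      intro n
      induction n with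
      | zero =>
        intro _ x y h
        rw [agree_all h]
      | succ n ih =>
        intro hn x y h
        have ih' := ih (by omega)
        have hj : b - (n + 1) < b := by omega
        have e : b - n = (b - (n + 1)) + 1 := by omega
        rw [e] at ih'
        by_cases hθj : θ = lam b (b - (n + 1))
        · by_contra hcon
          obtain ⟨u, v, huv, hne⟩ := hall ⟨b - (n + 1), hj⟩ hθj ⟨x, y, h, hcon⟩
          exact hne (ih' u v huv)
        · have h5 := step_down (hA (c x)) hj hθj (by
            intro u v huv
            simp only [ih' u v huv]) x y h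
          simp only [if_true] at h5
          by_contra hne
          rw [if_neg (Ne.symm hne)] at h5
          norm_num at h5
    intro x y
    refine key b le_rfl x y ?_
    intro j hj
    omega

/-- the sign of a pair of bits -/
noncomputable def sgn (p q : Bool) : ℝ := if q = p then 1 else -1

theorem same_minus (j : Fin b) (x : W b) : A (fun y => sgn (x j) (y j)) x = lam b j := by
  have h1 := A_diff j (fun y => sgn (x j) (y j)) (by
    intro u v h
    simp only [h j (by omega)]) x
  have h2 := A_aut (flipAut j) (fun y => sgn (x j) (y j)) x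
  change A (fun y => sgn (x j) (flip j y j)) x = A (fun y => sgn (x j) (y j)) (flip j x) at h2
  have h3 : A (fun y => sgn (x j) (flip j y j)) x = - A (fun y => sgn (x j) (y j)) x := by
    unfold A
    rw [← Finset.sum_neg_distrib]
    apply Finset.sum_congr rfl
    intro y _
    simp only [flip_same, sgn]
    by_cases hxy : (Gr b).Adj x y <;> cases x j <;> cases y j <;> simp [hxy]
  rw [← h2, h3, flip_same] at h1
  have h4 : sgn (x j) (x j) - sgn (x j) (!x j) = 2 := by
    unfold sgn
    cases x j <;> norm_num
  rw [h4] at h1
  linarith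

theorem A_one (x : W b) : A (fun _ => 1) x = (nbrs (Gr b) x Set.univ : ℝ) := by
  unfold A nbrs
  rw [Set.ncard_eq_toFinset_card', Finset.card_eq_sum_ones, Nat.cast_sum]
  rw [show (Set.toFinset {w | (Gr b).Adj x w ∧ w ∈ Set.univ}) =
    Finset.univ.filter (fun w => (Gr b).Adj x w) by ext w; simp]
  rw [Finset.sum_filter]
  apply Finset.sum_congr rfl
  intro y _
  by_cases h1 : (Gr b).Adj x y <;> simp [h1]

/-- the coloring by the `j`-th bit -/
def colj (j : Fin b) (x : W b) : Fin 2 := if x j then 1 else 0

theorem colj_eq (j : Fin b) (x y : W b) : colj j x = colj j y ↔ x j = y j := by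
  unfold colj
  cases x j <;> cases y j <;> simp

theorem colj_fat (j : Fin b) : IsFAT (Gr b) (colj j) := by
  set d : ℝ := (nbrs (Gr b) (zero : W b) Set.univ : ℝ) with hd
  have hsame : ∀ x i, colj j x = i → (nbrs (Gr b) x {w | colj j w = i} : ℝ) = (d + lam b j) / 2 := by
    intro x i hi
    subst hi
    have e : A (fun y => sgn (x j) (y j)) x + A (fun _ => 1) x =
        2 * A (fun y => if colj j y = colj j x then (1 : ℝ) else 0) x := by
      unfold A
      rw [← Finset.sum_add_distrib, Finset.mul_sum]
      apply Finset.sum_congr rfl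
      intro y _
      simp only [colj_eq, sgn]
      split_ifs <;> norm_num
    rw [same_minus, A_one, nbrs_univ, A_indicator, ← hd] at e
    linarith
  have hdiff : ∀ x i, colj j x ≠ i → (nbrs (Gr b) x {w | colj j w = i} : ℝ) = (d - lam b j) / 2 := by
    intro x i hi
    have e : A (fun _ => 1) x - A (fun y => sgn (x j) (y j)) x =
        2 * A (fun y => if colj j y = i then (1 : ℝ) else 0) x := by
      unfold A
      rw [← Finset.sum_sub_distrib, Finset.mul_sum]
      apply Finset.sum_congr rfl
      intro y _
      have h1 : colj j y = i ↔ y j ≠ x j := by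
        rw [← not_iff_not, not_not, ← colj_eq]
        constructor
        · intro h
          revert h hi
          generalize colj j y = p
          generalize colj j x = q
          revert p q i
          decide
        · intro h h'
          exact hi (h.symm.trans h')
      simp only [h1, sgn]
      split_ifs <;> first | contradiction | norm_num
    rw [same_minus, A_one, nbrs_univ, A_indicator, ← hd] at e
    linarith
  have hd0 : 0 ≤ d := Nat.cast_nonneg _
  have hp : 0 ≤ (d + lam b j) / 2 := by
    rw [← hsame zero _ rfl]; exact Nat.cast_nonneg _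
  have hm : 0 ≤ (d - lam b j) / 2 := by
    have := hdiff zero (colj j (flip j zero)) (by
      rw [Ne, colj_eq, flip_same]; simp [zero])
    rw [← this]; exact Nat.cast_nonneg _
  rcases eq_or_lt_of_le hd0 with h0 | h0
  · refine ⟨0, le_rfl, zero_le_one, ?_⟩
    intro x i
    rw [nbrs_univ, ← hd, ← h0, mul_zero]
    by_cases h : colj j x = i
    · rw [hsame x i h]; linarith
    · rw [hdiff x i h]; linarith
  · refine ⟨(d - lam b j) / 2 / d, by positivity, ?_, ?_⟩
    · rw [div_le_one h0]; linarith
    · intro x i
      rw [nbrs_univ, ← hd]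
      by_cases h : colj j x = i
      · rw [hsame x i h, if_pos h]
        push_cast
        field_simp
        ring
      · rw [hdiff x i h, if_neg h]
        field_simp

/-- the partition by the `j`-th bit -/
def lev (j : Fin b) : Setoid (W b) := Setoid.ker (colj j)

theorem lev_iff (j : Fin b) (x y : W b) : lev j x y ↔ x j = y j := by
  unfold lev
  rw [Setoid.ker_def, colj_eq]

theorem classifyP {s : Setoid (W b)} (hs : IsFATPartition (Gr b) s) :
    (∀ x y, s x y) ∨ ∃ (j : Fin b) (h : W b → Bool), (∀ x y, s x y ↔ h x = h y) ∧
      (∀ x y, agree (j + 1) x y → h x = h y) ∧ (∀ x, h (flip j x) = !h x) := by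
  obtain ⟨k, c, hc, rfl⟩ := hs
  exact classify hc

theorem lev_irreducible (j : Fin b) : IsIrreducible (Gr b) (lev j) := by
  refine ⟨⟨2, colj j, colj_fat j, rfl⟩, ?_⟩
  intro t ht htj
  rcases classifyP ht with h | ⟨i, h, h1, -, h3⟩
  · have := htj (h zero (flip j zero))
    rw [lev_iff, flip_same] at this
    simp [zero] at this
  · ext x y
    refine ⟨fun hxy => htj hxy, ?_⟩
    rw [lev_iff, h1]
    intro hxy
    by_contra hne
    have h4 : ∀ z : W b, z j = x j := by
      intro z
      by_cases hz : h z = h x
      · exact (lev_iff j z x).1 (htj ((h1 z x).2 hz))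
      · have hz' : h z = h y := by
          revert hz hne
          cases h z <;> cases h x <;> cases h y <;> simp
        exact ((lev_iff j z y).1 (htj ((h1 z y).2 hz'))).trans hxy.symm
    have h5 := h4 (flip j x)
    rw [flip_same] at h5
    revert h5
    cases x j <;> simp

/-- every irreducible FAT partition is equivalent to one of the `lev j` -/
theorem exists_lev (hb : 0 < b) {s : Setoid (W b)} (hs : IsIrreducible (Gr b) s) :
    ∃ (j : Fin b) (φ : Gr b ≃g Gr b), ∀ x y, s x y ↔ lev j (φ x) (φ y) := by
  rcases classifyP hs.1 with h | ⟨j, h, h1, h2, h3⟩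
  · exfalso
    have h4 := hs.2 (lev ⟨0, hb⟩) ⟨2, colj _, colj_fat _, rfl⟩ (fun {x y} _ => h x y)
    have h5 : lev ⟨0, hb⟩ zero (flip ⟨0, hb⟩ zero) := by rw [h4]; exact h _ _
    rw [lev_iff, flip_same] at h5
    simp [zero] at h5
  · refine ⟨j, autOf (fun x => Function.update x j (h x)) ?_ ?_, ?_⟩
    · intro x
      have h4 : h (Function.update x j (h x)) = x j := by
        by_cases h5 : h x = x j
        · rw [h5, Function.update_eq_self, h5]
        · have h6 : Function.update x j (h x) = flip j x := by
            unfold flip
            congr 1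
            revert h5
            cases h x <;> cases x j <;> simp
          rw [h6, h3]
          revert h5
          cases h x <;> cases x j <;> simp
      simp only [h4, Function.update_idem, Function.update_eq_self]
    · intro n x y hxy i hi
      by_cases hij : i = j
      · subst hij
        simp only [Function.update_self]
        exact h2 x y (hxy.mono hi)
      · rw [Function.update_of_ne hij, Function.update_of_ne hij]
        exact hxy i hi
    · intro x y
      rw [lev_iff, h1]
      change _ ↔ Function.update x j (h x) j = Function.update y j (h y) j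
      simp


/-- a level is determined by its orbit -/
theorem lev_orbit {j i : Fin b} (φ : Gr b ≃g Gr b) (h : ∀ x y, lev j x y ↔ lev i (φ x) (φ y)) :
    j = i := by
  have h1 := same_minus j (zero : W b)
  have h2 := A_aut φ (fun y => sgn (φ zero i) (y i)) (zero : W b)
  have h3 : (fun y : W b => sgn (φ zero i) (φ y i)) = fun y => sgn ((zero : W b) j) (y j) := by
    funext y
    have h4 := h zero y
    rw [lev_iff, lev_iff] at h4
    unfold sgn
    by_cases h5 : (zero : W b) j = y j
    · rw [if_pos h5.symm, if_pos (h4.1 h5).symm]
    · rw [if_neg (fun h6 => h5 (h4.2 h6.symm)), if_neg (fun h6 => h5 h6.symm)]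
  rw [h3, h1, same_minus] at h2
  exact Fin.ext (lam_inj j.2 i.2 h2)

theorem count (hb : 0 < b) : numIrreducible (Gr b) = b := by
  unfold numIrreducible
  let F : Fin b → Quotient (sameOrbit (Gr b)) := fun j => Quotient.mk _ ⟨lev j, lev_irreducible j⟩
  have hF : Function.Bijective F := by
    constructor
    · intro j i h
      obtain ⟨φ, hφ⟩ := Quotient.exact h
      exact lev_orbit φ hφ
    · intro q
      induction q using Quotient.inductionOn with
      | h s =>
        obtain ⟨j, φ, hφ⟩ := exists_lev hb s.2
        refine ⟨j, Quotient.sound ((sameOrbit (Gr b)).symm ⟨φ, hφ⟩)⟩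
  rw [← Nat.card_congr (Equiv.ofBijective F hF), Nat.card_eq_fintype_card, Fintype.card_fin]

/-- For every positive integer `b` there is a finite simple graph with exactly `b` irreducible FAT
colorings (partitions into nonempty color classes, up to automorphisms of the graph). -/
theorem result : ∀ b : ℕ, 0 < b →
    ∃ (V : Type) (_ : Finite V) (G : SimpleGraph V), numIrreducible G = b :=
  fun b hb => ⟨W b, inferInstance, Gr b, count hb⟩

end Pool.Agent.Results.MP_48b99b_co.AllCounts
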